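import Pool.Agent.Helper66.NF.Main
import Pool.Agent.Helper1.NF.ZLow
import Pool.Agent.Helper27.NF.Dom
import Pool.Agent.Helper27.NF.Err
import Pool.Agent.Helper27.NF.Phi
import Pool.Agent.Helper27.ZS.Greedy
import Pool.Agent.Helper3.ZS.Rec
import Pool.Agent.Helper37.ZS.Sample
import Pool.Agent.Helper38.ZS.Perc
import Pool.Agent.Helper38.ZS.Sign
import Pool.Agent.Helper38.ZS.ZC
import Pool.Agent.Helper38.ZS.ZCnt
import Pool.Agent.Helper39.ZS.Pack
import Pool.Agent.Helper43.ZS.Big
import Pool.Agent.Helper55.ZS.Part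
import Pool.Agent.Helper55.ZS.Piece
import Pool.Agent.Helper55.ZS.Prof
import Pool.Agent.Helper55.NF.Rank
import Pool.Agent.Helper59.ZS.Level
import Pool.Agent.Helper60.NF.Int
import Pool.Agent.Helper60.NF.Scale
import Pool.Agent.Helper60.NF.ZCost
import Pool.Agent.Helper61.NF.SignZ
import Pool.Agent.Helper61.NF.Step
import Pool.Agent.Helper68.NF.LDet
import Pool.Agent.Helper68.NF.LevLow
import Pool.Agent.Helper81.ZS.Step
import Pool.Agent.Helper81.ZS.Sub
import Pool.Agent.Helper81.ZS.Top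
import Pool.Agent.Helper94.ZS.Count
import Pool.Agent.Helper94.ZS.Samples

/-!
# Dimension free Beck-Fiala up to a logarithm: all modules together
-/

namespace Pool.Agent.Helper66.NF

/-- zonotope signing -/
theorem sign : Pool.Agent.Helper38.ZS.ST_SIGN :=
  Helper38.ZS.st_sign
    (Helper55.ZS.st_PIECE Helper59.ZS.st_level Helper55.ZS.st_PROF Helper55.ZS.st_PART)
    Helper43.ZS.st_big Helper3.ZS.st_REC
    (Helper38.ZS.st_zc
      (Helper94.ZS.st_COUNT
        (Helper81.ZS.st_step (Helper94.ZS.st_SAMPLES Helper37.ZS.st_sample)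
          Helper39.ZS.st_PACK Helper27.ZS.st_greedy)
        (Helper81.ZS.st_top Helper39.ZS.st_PACK Helper27.ZS.st_greedy)
        Helper38.ZS.st_zcnt (Helper81.ZS.st_sub Helper38.ZS.st_perc))
      Helper38.ZS.st_zcnt)

/-- Beck-Fiala with `C * sqrt t * (1 + log t)`, any number of elements and sets -/
theorem nfree : Pool.Agent.Helper28.NF.ST_MAIN :=
  st_MAIN (Helper27.NF.st_DOM Helper27.NF.st_PHI Helper60.NF.st_int) Helper60.NF.st_scale
    Helper68.NF.st_LD
    (Helper55.NF.st_RANK Helper60.NF.st_int Helper60.NF.st_zcost Helper68.NF.st_LD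
      (Helper68.NF.st_LEVLOW Helper1.NF.st_ZLOW Helper68.NF.st_LD))
    (Helper61.NF.st_step (Helper61.NF.st_signz sign)) Helper27.NF.st_ERR

end Pool.Agent.Helper66.NF

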