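import Pool.Agent.Helper28.NF.Stmts

/-!
# Dimension free Beck-Fiala, module 12: iteration of the steps
-/

namespace Pool.Agent.Helper66.NF

open Finset
open scoped Classical
open Pool.Agent.Helper28.NF

theorem iter_aux {ι κ : Type} [Fintype ι] (S : κ → Finset ι) (k : ι → ℕ) (τ : ℕ → ι → ℝ)
    (σ : ℕ → κ → ℝ) (hτ : ∀ i v, 0 ≤ τ i v) (hsum : ∀ v, ∑ i ∈ Icc 1 (k v), τ i v ≤ 1)
    (hstep : ∀ i, 1 ≤ i → ∀ z : ι → ℝ, (∀ v, |z v| ≤ 1) →
      ∃ (ξ δ : ι → ℝ) (ρ : κ → ℝ), (∀ v, ξ v = 1 ∨ ξ v = -1) ∧ (∀ v, |δ v| ≤ τ i v) ∧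
        (∀ j, |ρ j| ≤ σ i j) ∧
        ∀ j, ∑ v ∈ (S j).filter (fun v => k v + 1 = i), (ξ v - z v)
          = ∑ v ∈ (S j).filter (fun v => i ≤ k v), δ v + ρ j) (n : ℕ) :
    ∃ (χ z : ι → ℝ), (∀ v, χ v = 1 ∨ χ v = -1) ∧
      (∀ v, n ≤ k v → |z v| ≤ ∑ i ∈ Icc 1 n, τ i v) ∧
      ∀ j, |∑ v ∈ (S j).filter (fun v => k v + 1 ≤ n), χ v
          + ∑ v ∈ (S j).filter (fun v => n ≤ k v), z v| ≤
        ∑ i ∈ Icc 1 n, (if (S j).filter (fun v => k v + 1 = i) = ∅
          then min (σ i j) (∑ v ∈ (S j).filter (fun v => i ≤ k v), τ i v) else σ i j) := by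
  induction n with
  | zero =>
    refine ⟨fun _ => 1, fun _ => 0, fun v => Or.inl rfl, ?_, ?_⟩
    · intro v _; simp
    · intro j; simp
  | succ n ih =>
    obtain ⟨χ, z, hχ, hz, hS⟩ := ih
    have hz1 : ∀ v, |(if n ≤ k v then z v else 0)| ≤ 1 := by
      intro v
      split_ifs with h
      · refine (hz v h).trans ((Finset.sum_le_sum_of_subset_of_nonneg ?_ ?_).trans (hsum v))
        · exact Finset.Icc_subset_Icc_right h
        · intro i _ _; exact hτ i v
      · simp
    obtain ⟨ξ, δ, ρ, hξ, hδ, hρ, he⟩ := hstep (n + 1) (by omega) _ hz1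
    refine ⟨fun v => if k v = n then ξ v else χ v, fun v => z v - δ v, ?_, ?_, ?_⟩
    · intro v
      by_cases h : k v = n
      · simp only [h, if_true]; exact hξ v
      · simp only [h, if_false]; exact hχ v
    · intro v hv
      rw [Finset.sum_Icc_succ_top (by omega)]
      have h1 := hz v (by omega)
      have h2 := hδ v
      calc |z v - δ v| ≤ |z v| + |δ v| := abs_sub _ _
        _ ≤ _ := add_le_add h1 h2
    · intro j
      rw [Finset.sum_Icc_succ_top (by omega)]
      have hb : |ρ j| ≤ (if (S j).filter (fun v => k v + 1 = n + 1) = ∅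
          then min (σ (n + 1) j) (∑ v ∈ (S j).filter (fun v => n + 1 ≤ k v), τ (n + 1) v)
          else σ (n + 1) j) := by
        split_ifs with h
        · refine le_min (hρ j) ?_
          have h1 := he j
          rw [h, Finset.sum_empty] at h1
          have h2 : ρ j = -∑ v ∈ (S j).filter (fun v => n + 1 ≤ k v), δ v := by linarith
          rw [h2, abs_neg]
          exact (Finset.abs_sum_le_sum_abs _ _).trans (Finset.sum_le_sum (fun v _ => hδ v))
        · exact hρ j
      have hsplit : (S j).filter (fun v => k v + 1 ≤ n + 1)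
          = (S j).filter (fun v => k v + 1 ≤ n) ∪ (S j).filter (fun v => k v = n) := by
        ext v; simp only [mem_filter, mem_union]; constructor
        · rintro ⟨h1, h2⟩
          by_cases h3 : k v = n
          · right; exact ⟨h1, h3⟩
          · left; exact ⟨h1, by omega⟩
        · rintro (⟨h1, h2⟩ | ⟨h1, h2⟩)
          · exact ⟨h1, by omega⟩
          · exact ⟨h1, by omega⟩
      have hdis : Disjoint ((S j).filter (fun v => k v + 1 ≤ n))
          ((S j).filter (fun v => k v = n)) := by
        rw [Finset.disjoint_left]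
        intro v h1 h2
        simp only [mem_filter] at h1 h2
        omega
      have hsplit2 : (S j).filter (fun v => n ≤ k v)
          = (S j).filter (fun v => n + 1 ≤ k v) ∪ (S j).filter (fun v => k v = n) := by
        ext v; simp only [mem_filter, mem_union]; constructor
        · rintro ⟨h1, h2⟩
          by_cases h3 : k v = n
          · right; exact ⟨h1, h3⟩
          · left; exact ⟨h1, by omega⟩
        · rintro (⟨h1, h2⟩ | ⟨h1, h2⟩)
          · exact ⟨h1, by omega⟩
          · exact ⟨h1, by omega⟩
      have hdis2 : Disjoint ((S j).filter (fun v => n + 1 ≤ k v))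
          ((S j).filter (fun v => k v = n)) := by
        rw [Finset.disjoint_left]
        intro v h1 h2
        simp only [mem_filter] at h1 h2
        omega
      have e1 : ∑ v ∈ (S j).filter (fun v => k v + 1 ≤ n + 1), (if k v = n then ξ v else χ v)
          = ∑ v ∈ (S j).filter (fun v => k v + 1 ≤ n), χ v
            + ∑ v ∈ (S j).filter (fun v => k v = n), ξ v := by
        rw [hsplit, Finset.sum_union hdis]
        congr 1
        · refine Finset.sum_congr rfl (fun v hv => ?_)
          simp only [mem_filter] at hv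
          rw [if_neg (by omega)]
        · refine Finset.sum_congr rfl (fun v hv => ?_)
          simp only [mem_filter] at hv
          rw [if_pos hv.2]
      have e2 := hS j
      rw [hsplit2, Finset.sum_union hdis2] at e2
      have e3 := he j
      have hf : (S j).filter (fun v => k v + 1 = n + 1) = (S j).filter (fun v => k v = n) := by
        ext v; simp only [mem_filter]; constructor
        · rintro ⟨h1, h2⟩; exact ⟨h1, by omega⟩
        · rintro ⟨h1, h2⟩; exact ⟨h1, by omega⟩
      rw [hf, Finset.sum_sub_distrib] at e3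
      have e4 : ∑ v ∈ (S j).filter (fun v => k v = n), (if n ≤ k v then z v else 0)
          = ∑ v ∈ (S j).filter (fun v => k v = n), z v := by
        refine Finset.sum_congr rfl (fun v hv => ?_)
        simp only [mem_filter] at hv
        rw [if_pos (by omega)]
      rw [e4] at e3
      rw [e1, Finset.sum_sub_distrib]
      have e5 : ∑ v ∈ (S j).filter (fun v => k v + 1 ≤ n), χ v
            + ∑ v ∈ (S j).filter (fun v => k v = n), ξ v
            + (∑ v ∈ (S j).filter (fun v => n + 1 ≤ k v), z v
              - ∑ v ∈ (S j).filter (fun v => n + 1 ≤ k v), δ v)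
          = (∑ v ∈ (S j).filter (fun v => k v + 1 ≤ n), χ v
            + (∑ v ∈ (S j).filter (fun v => n + 1 ≤ k v), z v
              + ∑ v ∈ (S j).filter (fun v => k v = n), z v)) + ρ j := by
        linarith
      rw [e5]
      exact (abs_add_le _ _).trans (add_le_add e2 hb)

/-- N12 -/
theorem st_ITER : ST_ITER := by
  intro ι κ _ _ S k τ σ hτ hσ hsum hstep
  obtain ⟨χ, z, hχ, hz, hS⟩ := iter_aux S k τ σ hτ hsum hstep (univ.sup k + 1)
  refine ⟨fun v => if χ v = 1 then 1 else -1, ?_, ?_⟩
  · intro v
    by_cases h : χ v = 1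
    · left; simp [h]
    · right; simp [h]
  · intro j
    have h1 := hS j
    have hk : ∀ v, k v ≤ univ.sup k := fun v => Finset.le_sup (Finset.mem_univ v)
    have e1 : (S j).filter (fun v => k v + 1 ≤ univ.sup k + 1) = S j := by
      rw [Finset.filter_true_of_mem]
      intro v _
      have := hk v
      omega
    have e2 : (S j).filter (fun v => univ.sup k + 1 ≤ k v) = ∅ := by
      rw [Finset.filter_eq_empty_iff]
      intro v _
      have := hk v
      omega
    rw [e1, e2, Finset.sum_empty, add_zero] at h1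
    have e3 : ((∑ v ∈ S j, (if χ v = 1 then (1 : ℤ) else -1) : ℤ) : ℝ) = ∑ v ∈ S j, χ v := by
      push_cast
      refine Finset.sum_congr rfl (fun v _ => ?_)
      rcases hχ v with h | h
      · simp [h]
      · rw [h]; norm_num
    rw [e3]
    exact h1

end Pool.Agent.Helper66.NF
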