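import Pool.Agent.Helper66.NF.Iter

/-!
# Dimension free Beck-Fiala, module 14: constants and assembly
-/

namespace Pool.Agent.Helper66.NF

open Finset
open scoped Classical
open Pool.Agent.Helper28.NF

/-- the constant of the domination -/
noncomputable def AA : ℝ := 3200000 / 7

theorem prof_pos {m x : ℝ} (hm : 0 < m) : 0 < prof m x := by
  unfold prof
  split_ifs with h
  · norm_num
  · have : 0 < x := hm.trans (not_le.1 h)
    positivity

/-- domination of the sources of step `i` by the reserve, in `l1` -/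
theorem dom_step (h3 : ST_DOM) (h4 : ST_SCALE) {ι κ : Type} [Fintype ι] [Fintype κ]
    (S : κ → Finset ι) (L : κ → ℝ) (k : ι → ℕ) (i : ℕ) (hL : ∀ j, 0 < L j)
    (hH : ∀ u, k u + 1 = i → Happy S L (bb k i) u) (y : κ → ℝ) :
    ∑ u ∈ univ.filter (fun u => k u + 1 = i), |fv S y u| ≤
      ∑ v ∈ univ.filter (fun v => i ≤ k v), (AA * (1 / 4 : ℝ) ^ (k v - i)) * |fv S y v|
        + ∑ j, (4 * AA * Real.sqrt (L j)) * |y j| := by
  have hneg : ∀ u, bb k i u < 0 → k u + 1 = i := by
    intro u hu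
    unfold bb at hu
    split_ifs at hu with h1 h2
    · exact absurd hu (not_lt.2 (by positivity))
    · exact h2
    · exact absurd hu (lt_irrefl _)
  have hd := h3 ι κ S L (bb k i) hL (fun u hu => hH u (hneg u hu))
  have hs := h4 ι κ S L (fun u => 7 / 20 * max (-bb k i u) 0) (fun v => max (bb k i v) 0) hL
    (fun v => by positivity) (fun v => le_max_right _ _) (by
      intro y
      have := hd y
      rw [Finset.mul_sum] at this
      calc ∑ u, 7 / 20 * max (-bb k i u) 0 * Ph (fv S y u)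
          = ∑ u, 7 / 20 * (max (-bb k i u) 0 * Ph (fv S y u)) :=
            Finset.sum_congr rfl (fun u _ => by ring)
        _ ≤ _ := this) y
  have e1 : ∑ u, 7 / 20 * max (-bb k i u) 0 * |fv S y u|
      = 1 / AA * ∑ u ∈ univ.filter (fun u => k u + 1 = i), |fv S y u| := by
    rw [Finset.mul_sum, Finset.sum_filter]
    refine Finset.sum_congr rfl (fun u _ => ?_)
    unfold bb
    by_cases h1 : i ≤ k u
    · have h2 : ¬ (k u + 1 = i) := by omega
      rw [if_pos h1, if_neg h2, max_eq_right (by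
        have : (0 : ℝ) ≤ (1 / 4) ^ (k u - i) := by positivity
        linarith)]
      ring
    · rw [if_neg h1]
      by_cases h2 : k u + 1 = i
      · rw [if_pos h2, if_pos h2, max_eq_left (by norm_num)]
        unfold AA; norm_num
      · rw [if_neg h2, if_neg h2]; simp
  have e2 : ∑ v, max (bb k i v) 0 * |fv S y v|
      = ∑ v ∈ univ.filter (fun v => i ≤ k v), (1 / 4 : ℝ) ^ (k v - i) * |fv S y v| := by
    rw [Finset.sum_filter]
    refine Finset.sum_congr rfl (fun u _ => ?_)
    unfold bb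
    by_cases h1 : i ≤ k u
    · rw [if_pos h1, if_pos h1, max_eq_left (by positivity)]
    · rw [if_neg h1, if_neg h1]
      split_ifs
      · rw [max_eq_right (by norm_num)]; ring
      · simp
  rw [e1, e2] at hs
  have hA : (0 : ℝ) < AA := by unfold AA; norm_num
  have h5 := mul_le_mul_of_nonneg_left hs hA.le
  have e3 : AA * (1 / AA * ∑ u ∈ univ.filter (fun u => k u + 1 = i), |fv S y u|)
      = ∑ u ∈ univ.filter (fun u => k u + 1 = i), |fv S y u| := by
    field_simp
  rw [e3] at h5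
  refine h5.trans (le_of_eq ?_)
  rw [mul_add, Finset.mul_sum]
  congr 1
  · exact Finset.sum_congr rfl (fun v _ => by ring)
  · rw [Finset.mul_sum, Finset.mul_sum]
    exact Finset.sum_congr rfl (fun v _ => by ring)

theorem geo4 (K : ℕ) : ∑ i ∈ Icc 1 K, (1 / 4 : ℝ) ^ (K - i) ≤ 4 / 3 := by
  have e : ∑ i ∈ Icc 1 K, (1 / 4 : ℝ) ^ (K - i) = ∑ h ∈ range K, (1 / 4 : ℝ) ^ h := by
    refine Finset.sum_bij' (fun i _ => K - i) (fun h _ => K - h) ?_ ?_ ?_ ?_ ?_
    · intro i hi; simp only [mem_Icc] at hi; simp only [mem_range]; omega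
    · intro h hh; simp only [mem_range] at hh; simp only [mem_Icc]; omega
    · intro i hi; simp only [mem_Icc] at hi; omega
    · intro h hh; simp only [mem_range] at hh; omega
    · intro i _; rfl
  rw [e, geom_sum_eq (by norm_num)]
  have : (0 : ℝ) ≤ (1 / 4) ^ K := by positivity
  rw [div_le_iff_of_neg (by norm_num)]
  linarith

theorem geo2 (K H : ℕ) : ∑ i ∈ Icc 1 K, (1 / 2 : ℝ) ^ (K - i - H) ≤ H + 2 := by
  have e : ∑ i ∈ Icc 1 K, (1 / 2 : ℝ) ^ (K - i - H) = ∑ h ∈ range K, (1 / 2 : ℝ) ^ (h - H) := by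
    refine Finset.sum_bij' (fun i _ => K - i) (fun h _ => K - h) ?_ ?_ ?_ ?_ ?_
    · intro i hi; simp only [mem_Icc] at hi; simp only [mem_range]; omega
    · intro h hh; simp only [mem_range] at hh; simp only [mem_Icc]; omega
    · intro i hi; simp only [mem_Icc] at hi; omega
    · intro h hh; simp only [mem_range] at hh; omega
    · intro i _; rfl
  rw [e]
  have key : ∀ N : ℕ, ∑ h ∈ range (H + N), (1 / 2 : ℝ) ^ (h - H) ≤ H + 2 - 2 * (1 / 2) ^ N := by
    intro N
    induction N with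
    | zero =>
      rw [add_zero, pow_zero]
      have : ∑ h ∈ range H, (1 / 2 : ℝ) ^ (h - H) = H := by
        rw [Finset.sum_congr rfl (g := fun _ => (1 : ℝ))]
        · simp
        · intro h hh
          simp only [mem_range] at hh
          rw [show h - H = 0 by omega, pow_zero]
      rw [this]; linarith
    | succ N ih =>
      rw [← add_assoc, Finset.sum_range_succ, show H + N - H = N by omega]
      rw [pow_succ]
      linarith
  calc ∑ h ∈ range K, (1 / 2 : ℝ) ^ (h - H) ≤ ∑ h ∈ range (H + K), (1 / 2 : ℝ) ^ (h - H) := by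
        refine Finset.sum_le_sum_of_subset_of_nonneg ?_ (fun _ _ _ => by positivity)
        intro x hx; simp only [mem_range] at hx ⊢; omega
    _ ≤ H + 2 - 2 * (1 / 2) ^ K := key K
    _ ≤ H + 2 := by
        have : (0 : ℝ) ≤ 2 * (1 / 2) ^ K := by positivity
        linarith

theorem exists_H (c : ℝ) (hc : 0 ≤ c) :
    ∃ H : ℕ, 50 * max 1 (c * (H + 2) ^ 2) ≤ (400 : ℝ) ^ H := by
  obtain ⟨H, hH⟩ := pow_unbounded_of_one_lt (800 * c + 50) (show (1 : ℝ) < 100 by norm_num)
  refine ⟨H, ?_⟩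
  have h4 : (400 : ℝ) ^ H = 4 ^ H * 100 ^ H := by rw [← mul_pow]; norm_num
  have h1 : (1 : ℝ) ≤ 4 ^ H := one_le_pow₀ (by norm_num)
  have h2 : ((H : ℝ) + 2) ^ 2 ≤ 16 * 4 ^ H := by
    have h3 : (H : ℝ) + 1 ≤ 2 ^ H := by
      have := Nat.lt_two_pow_self (n := H)
      exact_mod_cast this
    have h5 : (H : ℝ) + 2 ≤ 4 * 2 ^ H := by
      have : (0 : ℝ) ≤ H := Nat.cast_nonneg H
      linarith
    have h6 : ((H : ℝ) + 2) ^ 2 ≤ (4 * 2 ^ H) ^ 2 :=
      pow_le_pow_left₀ (by positivity) h5 2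
    have h7 : (4 * (2 : ℝ) ^ H) ^ 2 = 16 * 4 ^ H := by
      rw [mul_pow, ← pow_mul, mul_comm H 2, pow_mul]; norm_num
    rwa [h7] at h6
  rw [mul_max_of_nonneg _ _ (by norm_num : (0 : ℝ) ≤ 50), h4]
  refine max_le ?_ ?_
  · have : (50 : ℝ) ≤ 100 ^ H := by linarith
    nlinarith [this, h1]
  · have h8 : c * ((H : ℝ) + 2) ^ 2 ≤ c * (16 * 4 ^ H) := mul_le_mul_of_nonneg_left h2 hc
    have h9 : (4 : ℝ) ^ H * (800 * c) ≤ 4 ^ H * 100 ^ H :=
      mul_le_mul_of_nonneg_left (by linarith) (by positivity)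
    nlinarith

theorem exists_g (M0 : ℕ) (hM : 2 ≤ M0) : ∃ C : ℝ, 1 ≤ C ∧ ∀ t : ℕ, 1 ≤ t →
    ∃ g : ℕ, 32 * t * (M0 * t ^ 2) ^ 2 ≤ 400 ^ g ∧ (g : ℝ) ≤ C * (1 + Real.log t) := by
  refine ⟨6 + 32 * M0 ^ 2, by nlinarith [sq_nonneg (M0 : ℝ)], ?_⟩
  intro t ht
  have hM' : (2 : ℝ) ≤ M0 := by exact_mod_cast hM
  have ht' : (1 : ℝ) ≤ t := by exact_mod_cast ht
  have hX : (1 : ℝ) ≤ 32 * t * (M0 * t ^ 2) ^ 2 := by
    have h1 : (1 : ℝ) ≤ M0 * t ^ 2 := by nlinarith [one_le_pow₀ ht' (n := 2)]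
    have h2 : (1 : ℝ) ≤ (M0 * t ^ 2) ^ 2 := one_le_pow₀ h1
    nlinarith
  have h400 : (1 : ℝ) ≤ Real.log 400 := by
    rw [← Real.log_exp 1]
    refine Real.log_le_log (Real.exp_pos 1) ?_
    have := Real.exp_one_lt_d9
    linarith
  refine ⟨⌈Real.log (32 * t * (M0 * t ^ 2) ^ 2) / Real.log 400⌉₊, ?_, ?_⟩
  · have h1 := Nat.le_ceil (Real.log (32 * t * (M0 * t ^ 2) ^ 2) / Real.log 400)
    rw [div_le_iff₀ (by linarith)] at h1
    have h2 : (32 * t * (M0 * t ^ 2) ^ 2 : ℝ)
        ≤ (400 : ℝ) ^ ⌈Real.log (32 * t * (M0 * t ^ 2) ^ 2) / Real.log 400⌉₊ := by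
      rw [← Real.log_le_log_iff (by linarith) (by positivity), Real.log_pow]
      exact h1
    exact_mod_cast h2
  · have hl : 0 ≤ Real.log (32 * t * (M0 * t ^ 2) ^ 2) := Real.log_nonneg hX
    have h1 := (Nat.ceil_lt_add_one (div_nonneg hl (by linarith : (0 : ℝ) ≤ Real.log 400))).le
    have h2 : Real.log (32 * t * (M0 * t ^ 2) ^ 2) / Real.log 400
        ≤ Real.log (32 * t * (M0 * t ^ 2) ^ 2) := div_le_self hl h400
    have h3 : Real.log (32 * t * (M0 * t ^ 2) ^ 2) = Real.log (32 * M0 ^ 2) + 5 * Real.log t := by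
      have : (32 * t * (M0 * t ^ 2) ^ 2 : ℝ) = (32 * M0 ^ 2) * t ^ 5 := by ring
      rw [this, Real.log_mul (by positivity) (by positivity), Real.log_pow]
      norm_num
    have h4 : Real.log (32 * (M0 : ℝ) ^ 2) ≤ 32 * M0 ^ 2 := by
      have := Real.log_le_sub_one_of_pos (show (0 : ℝ) < 32 * M0 ^ 2 by positivity)
      linarith
    have h5 : 0 ≤ Real.log (t : ℝ) := Real.log_nonneg ht'
    have h6 : (0 : ℝ) ≤ 32 * M0 ^ 2 := by positivity
    nlinarith [mul_nonneg h6 h5]

/-- N14 -/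
theorem st_MAIN (h3 : ST_DOM) (h4 : ST_SCALE) (h7 : ST_LD) (h9 : ST_RANK) (h11 : ST_STEP)
    (h13 : ST_ERR) : ST_MAIN := by
  have hA : (0 : ℝ) < AA := by unfold AA; norm_num
  obtain ⟨η, LY, hη0, hη1, hLY, hstep⟩ := h11 (1 / (4 * AA)) (by positivity) (by
    rw [div_le_one (by positivity)]; unfold AA; norm_num)
  obtain ⟨H, hH⟩ := exists_H (128 / 1000 * LY ^ 2 / η) (by positivity)
  set B : ℝ := max 1 (128 / 1000 * LY ^ 2 / η * (H + 2) ^ 2) with hB
  have hB1 : 1 ≤ B := le_max_left _ _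
  have hB2 : 128 / 1000 * LY ^ 2 / η * (H + 2) ^ 2 ≤ B := le_max_right _ _
  obtain ⟨M0, hM0, hrank⟩ := h9 H B hB1 hH
  obtain ⟨C, hC⟩ := h13 H M0 hM0
  obtain ⟨Cg, hCg1, hg⟩ := exists_g M0 hM0
  have hM0' : (2 : ℝ) ≤ M0 := by exact_mod_cast hM0
  set s : ℝ := 1 / (4 * LY * (H + 2)) with hs
  have hH2 : (0 : ℝ) < (H : ℝ) + 2 := by positivity
  have hs0 : 0 < s := by positivity
  have hs1 : s ≤ 1 := by
    rw [hs, div_le_one (by positivity)]
    have : (0 : ℝ) ≤ H := Nat.cast_nonneg H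
    nlinarith
  have hLs : LY * s = 1 / (4 * (H + 2)) := by rw [hs]; field_simp
  refine ⟨max C 0 * (80 * (1 + LY * Real.sqrt B)) * (Cg + 2), ?_⟩
  intro n m t S ht hdeg
  obtain ⟨g, hg1, hg2⟩ := hg t ht
  obtain ⟨k, hk⟩ := hrank (Fin n) (Fin m) S t g ht (fun v => by convert hdeg v) hg1
  have ht' : (1 : ℝ) ≤ t := by exact_mod_cast ht
  have hm : (0 : ℝ) < M0 * t ^ 2 := by positivity
  have hL0 : ∀ i j, 0 < LL S t (M0 * t ^ 2) k i j := by
    intro i j; unfold LL
    have := prof_pos (x := (nn S k i j : ℝ)) hm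
    positivity
  have hR0 : ∀ i j, 0 < RR S t B (M0 * t ^ 2) k i j := by
    intro i j; unfold RR
    have := prof_pos (x := (nn S k i j : ℝ)) hm
    positivity
  set τ : ℕ → Fin n → ℝ := fun i v => if i ≤ k v then
    1 / 4 * (1 / 4 : ℝ) ^ (k v - i) + LY * s * (1 / 2 : ℝ) ^ (k v - i - H) else 0 with hτ
  set σ : ℕ → Fin m → ℝ := fun i j =>
    (80 * Real.sqrt t * (1 + LY * Real.sqrt B)) * Real.sqrt (prof (M0 * t ^ 2) (nn S k i j))
    with hσ
  have hτ0 : ∀ i v, 0 ≤ τ i v := by
    intro i v; simp only [hτ]; split_ifs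
    · positivity
    · exact le_rfl
  have hiter := st_ITER (Fin n) (Fin m) S k τ σ hτ0 (fun i j => by positivity) ?_ ?_
  · obtain ⟨χ, hχ, hb⟩ := hiter
    refine ⟨χ, hχ, fun j => (hb j).trans ?_⟩
    have hs1' : (1 : ℝ) ≤ 80 * Real.sqrt t * (1 + LY * Real.sqrt B) := by
      have h1 : 1 ≤ Real.sqrt t := by rw [Real.one_le_sqrt]; exact ht'
      have h2 : 0 ≤ LY * Real.sqrt B := by positivity
      nlinarith
    have herr := hC (Fin n) (S j) k t g (univ.sup k + 1)
      (80 * Real.sqrt t * (1 + LY * Real.sqrt B)) ht hs1' (by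
        rintro i ⟨u, hu, hui⟩
        exact (hk i u hui).2.2 j hu)
    refine (Finset.sum_le_sum (fun i hi => ?_)).trans (herr.trans ?_)
    · split_ifs with h
      · refine min_le_min le_rfl ?_
        refine Finset.sum_le_sum (fun v hv => ?_)
        simp only [mem_filter] at hv
        simp only [hτ]
        rw [if_pos hv.2]
        have h1 : (1 / 4 : ℝ) ^ (k v - i) ≤ (1 / 2) ^ (k v - i) :=
          pow_le_pow_left₀ (by norm_num) (by norm_num) _
        have h2 : (1 / 2 : ℝ) ^ (k v - i - H) ≤ 2 ^ H * (1 / 2) ^ (k v - i) := by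
          have e : (2 : ℝ) ^ H * (1 / 2) ^ (k v - i) = 2 ^ H * (1 / 2) ^ (k v - i) := rfl
          rcases le_total H (k v - i) with h3 | h3
          · have : (1 / 2 : ℝ) ^ (k v - i) = (1 / 2) ^ H * (1 / 2) ^ (k v - i - H) := by
              rw [← pow_add]; congr 1; omega
            rw [this, ← mul_assoc, ← mul_pow]; norm_num
          · rw [show k v - i - H = 0 by omega, pow_zero]
            have h4 : (1 / 2 : ℝ) ^ H ≤ (1 / 2) ^ (k v - i) :=
              pow_le_pow_of_le_one (by norm_num) (by norm_num) h3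
            calc (1 : ℝ) = 2 ^ H * (1 / 2) ^ H := by rw [← mul_pow]; norm_num
              _ ≤ _ := mul_le_mul_of_nonneg_left h4 (by positivity)
        have h5 : LY * s ≤ 1 / 4 := by
          rw [hLs]
          apply one_div_le_one_div_of_le (by norm_num)
          have : (0 : ℝ) ≤ H := Nat.cast_nonneg H
          linarith
        have h6 : (1 : ℝ) ≤ 2 ^ H := one_le_pow₀ (by norm_num)
        have h7 : (0 : ℝ) ≤ (1 / 2) ^ (k v - i) := by positivity
        have h8 : (1 / 2 : ℝ) ^ (k v - i) ≤ 2 ^ H * (1 / 2) ^ (k v - i) := by nlinarith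
        have h9 : 0 ≤ (1 / 2 : ℝ) ^ (k v - i - H) := by positivity
        have h10 : LY * s * (1 / 2 : ℝ) ^ (k v - i - H) ≤ 1 / 4 * (1 / 2 : ℝ) ^ (k v - i - H) :=
          mul_le_mul_of_nonneg_right h5 h9
        linarith
      · exact le_rfl
    · have h1 : C * (80 * Real.sqrt t * (1 + LY * Real.sqrt B)) * (g + 1 + Real.log t)
          ≤ max C 0 * (80 * Real.sqrt t * (1 + LY * Real.sqrt B)) * (g + 1 + Real.log t) := by
        have hlog : 0 ≤ Real.log (t : ℝ) := Real.log_nonneg ht'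
        refine mul_le_mul_of_nonneg_right ?_ (by positivity)
        exact mul_le_mul_of_nonneg_right (le_max_left _ _) (by positivity)
      refine h1.trans ?_
      have hlog : 0 ≤ Real.log (t : ℝ) := Real.log_nonneg ht'
      have h2 : (g : ℝ) + 1 + Real.log t ≤ (Cg + 2) * (1 + Real.log t) := by nlinarith
      calc max C 0 * (80 * Real.sqrt t * (1 + LY * Real.sqrt B)) * (g + 1 + Real.log t)
          ≤ max C 0 * (80 * Real.sqrt t * (1 + LY * Real.sqrt B))
            * ((Cg + 2) * (1 + Real.log t)) :=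
            mul_le_mul_of_nonneg_left h2 (by positivity)
        _ = _ := by ring
  · intro v
    have e : ∑ i ∈ Icc 1 (k v), τ i v = 1 / 4 * ∑ i ∈ Icc 1 (k v), (1 / 4 : ℝ) ^ (k v - i)
        + LY * s * ∑ i ∈ Icc 1 (k v), (1 / 2 : ℝ) ^ (k v - i - H) := by
      rw [Finset.mul_sum, Finset.mul_sum, ← Finset.sum_add_distrib]
      refine Finset.sum_congr rfl (fun i hi => ?_)
      simp only [mem_Icc] at hi
      simp only [hτ]
      rw [if_pos hi.2]
    rw [e]
    have h1 := geo4 (k v)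
    have h2 := geo2 (k v) H
    have h3 : LY * s * ∑ i ∈ Icc 1 (k v), (1 / 2 : ℝ) ^ (k v - i - H) ≤ LY * s * (H + 2) :=
      mul_le_mul_of_nonneg_left h2 (by positivity)
    have h4 : LY * s * ((H : ℝ) + 2) = 1 / 4 := by rw [hLs]; field_simp
    linarith
  · intro i hi z hz
    have hd := dom_step h3 h4 S (LL S t (M0 * t ^ 2) k i) k i (hL0 i) (fun u hu => (hk i u hu).1)
    have hstep' := hstep (Fin n) (Fin m) S
      (univ.filter (fun u => k u + 1 = i)) (univ.filter (fun v => i ≤ k v))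
      (fun v => if i ≤ k v then s * (1 / 2 : ℝ) ^ (k v - i - H) else 0)
      (fun v => if i ≤ k v then AA * (1 / 4 : ℝ) ^ (k v - i) else 0) z
      (RR S t B (M0 * t ^ 2) k i) (fun j => 4 * AA * Real.sqrt (LL S t (M0 * t ^ 2) k i j))
    have hstep2 := hstep' (by
        rw [Finset.disjoint_left]
        intro v h1 h2
        simp only [mem_filter] at h1 h2
        omega) (hR0 i) (by
        intro v
        split_ifs
        · positivity
        · exact le_rfl) (by
        intro v
        split_ifs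
        · positivity
        · exact le_rfl) (by intro j; positivity) hz ?_ ?_
    · obtain ⟨ξ, δ, ρ, hξ, hδ, hρ, he⟩ := hstep2
      refine ⟨ξ, δ, ρ, hξ, ?_, ?_, ?_⟩
      · intro v
        refine (hδ v).trans (le_of_eq ?_)
        simp only [hτ]
        split_ifs
        · field_simp
        · ring
      · intro j
        refine (hρ j).trans (le_of_eq ?_)
        have e1 : Real.sqrt (LL S t (M0 * t ^ 2) k i j)
            = 80 * Real.sqrt t * Real.sqrt (prof (M0 * t ^ 2) (nn S k i j)) := by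
          unfold LL
          rw [show (6400 : ℝ) * t * prof (M0 * t ^ 2) (nn S k i j)
              = 80 ^ 2 * (t * prof (M0 * t ^ 2) (nn S k i j)) by ring,
            Real.sqrt_mul (by norm_num), Real.sqrt_sq (by norm_num),
            Real.sqrt_mul (by positivity)]
          ring
        have e2 : Real.sqrt (RR S t B (M0 * t ^ 2) k i j)
            = 80 * Real.sqrt t * Real.sqrt B * Real.sqrt (prof (M0 * t ^ 2) (nn S k i j)) := by
          unfold RR
          rw [show (6400 : ℝ) * B * t * prof (M0 * t ^ 2) (nn S k i j)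
              = 80 ^ 2 * (t * (B * prof (M0 * t ^ 2) (nn S k i j))) by ring,
            Real.sqrt_mul (by norm_num), Real.sqrt_sq (by norm_num),
            Real.sqrt_mul (by positivity), Real.sqrt_mul (by linarith)]
          ring
        simp only [hσ]
        rw [e1, e2]
        field_simp
      · intro j
        refine (Finset.sum_congr ?_ (fun _ _ => rfl)).trans ((he j).trans ?_)
        · ext v; simp
        · congr 1
          refine Finset.sum_congr ?_ (fun _ _ => rfl)
          ext v; simp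
    · intro u hu
      simp only [mem_filter, mem_univ, true_and] at hu
      have h1 := (hk i u hu).2.1
      refine ((h7 (Fin n) (Fin m) S (RR S t B (M0 * t ^ 2) k i) (ww H k i) (hR0 i) (by
        intro v; unfold ww; split_ifs
        · positivity
        · exact le_rfl)).2.2.2.2.2 _ (s ^ 2) u (by positivity) (by
          intro v
          unfold ww
          simp only [mem_filter, mem_univ, true_and]
          by_cases h3 : i ≤ k v
          · have h4 : ¬ (k v + 1 = i) := by omega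
            rw [if_pos h3, if_neg h4, if_pos h3, if_pos h3, mul_pow, ← pow_mul, mul_comm _ 2,
              pow_mul]
            norm_num
          · rw [if_neg h3, mul_zero]
            split_ifs
            · norm_num
            · exact le_rfl) (pow_le_one₀ hs0.le hs1)).trans ?_
      rw [div_le_iff₀ (by positivity)]
      refine h1.trans ?_
      rw [div_le_iff₀ (by linarith)]
      have e : s ^ 2 = 1 / (16 * LY ^ 2 * (H + 2) ^ 2) := by rw [hs]; field_simp; ring
      rw [e]
      have h5 : 8 / 1000 = η * (1 / (16 * LY ^ 2 * ((H : ℝ) + 2) ^ 2))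
          * (128 / 1000 * LY ^ 2 / η * (H + 2) ^ 2) := by field_simp; norm_num
      rw [h5]
      exact mul_le_mul_of_nonneg_left hB2 (by positivity)
    · intro y
      refine (hd y).trans (le_of_eq ?_)
      congr 1
      refine Finset.sum_congr rfl (fun v hv => ?_)
      simp only [mem_filter] at hv
      rw [if_pos hv.2]

end Pool.Agent.Helper66.NF
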